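import Pool.Agent.H18.TD.Targets

/-!
# td1_modules, row GRW: the growth of the logarithm
-/

set_option autoImplicit false

namespace Pool.Agent.H86.TDO

open Polynomial Module Filter Topology Pool.Agent.H18.TD

theorem pf_GRW : T_GRW := by
  intro C j
  have h1 : (fun x : ℝ => Real.log x ^ j) =o[atTop] (id : ℝ → ℝ) := Real.isLittleO_pow_log_id_atTop
  have htend : Tendsto (fun h : ℕ => Real.exp 1 * (h : ℝ)) atTop atTop :=
    Tendsto.const_mul_atTop (Real.exp_pos 1) tendsto_natCast_atTop_atTop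
  have h2 := h1.comp_tendsto htend
  have hc : 0 < 1 / (Real.exp 1 * (|C| + 1)) := by positivity
  have h3 := h2.def hc
  obtain ⟨h0, hh0⟩ := eventually_atTop.mp h3
  refine ⟨max 3 h0, le_max_left _ _, fun h hh => ?_⟩
  have hh3 : 3 ≤ h := (le_max_left _ _).trans hh
  have h4 := hh0 h ((le_max_right _ _).trans hh)
  simp only [Function.comp_apply, id_eq] at h4
  have hpos : (0 : ℝ) < h := by
    have : 0 < h := by omega
    exact_mod_cast this
  have hone : (1 : ℝ) ≤ h := by
    have : 1 ≤ h := by omega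
    exact_mod_cast this
  have hlog : 0 ≤ Real.log h := Real.log_nonneg hone
  have ha1 : |(1 + Real.log (h : ℝ)) ^ j| = (1 + Real.log (h : ℝ)) ^ j :=
    abs_of_nonneg (by positivity)
  have ha2 : |Real.exp 1 * (h : ℝ)| = Real.exp 1 * (h : ℝ) := abs_of_nonneg (by positivity)
  rw [Real.log_mul (Real.exp_pos 1).ne' hpos.ne', Real.log_exp, Real.norm_eq_abs, Real.norm_eq_abs,
    ha1, ha2] at h4
  have h5 : 1 / (Real.exp 1 * (|C| + 1)) * (Real.exp 1 * (h : ℝ)) = h / (|C| + 1) := by
    field_simp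
  rw [h5, le_div_iff₀ (by positivity)] at h4
  have h6 : C ≤ |C| + 1 := by linarith [le_abs_self C]
  calc C * (1 + Real.log h) ^ j ≤ (|C| + 1) * (1 + Real.log h) ^ j :=
        mul_le_mul_of_nonneg_right h6 (by positivity)
    _ = (1 + Real.log h) ^ j * (|C| + 1) := mul_comm _ _
    _ ≤ h := h4

end Pool.Agent.H86.TDO
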